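import Pool.Agent.Y249.SU.Bump

/-!
# Rajchman measures do not charge sets avoided by a multiplier along dilations
-/

set_option autoImplicit false

open MeasureTheory Filter Topology Set

namespace Pool.Agent.H292LU

open Pool.Agent.Y249.SU (E lam)

local instance : Fact ((0:ℝ) < 1) := ⟨one_pos⟩

theorem gen {ι : Type*} {l : Filter ι} (S : ι → C(AddCircle (1:ℝ), ℂ) → ℂ) {C : ℝ}
    (hadd : ∀ i x y, S i (x + y) = S i x + S i y) (hsmul : ∀ i (a : ℂ) x, S i (a • x) = a * S i x)
    (hbd : ∀ i x, ‖S i x‖ ≤ C * ‖x‖)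
    (hf : ∀ n : ℤ, Tendsto (fun i => S i (fourier n)) l (𝓝 0)) (x : C(AddCircle (1:ℝ), ℂ)) :
    Tendsto (fun i => S i x) l (𝓝 0) := by
  let W : Submodule ℂ C(AddCircle (1:ℝ), ℂ) :=
    { carrier := {x | Tendsto (fun i => S i x) l (𝓝 0)}
      add_mem' := by
        intro x y hx hy
        have := Tendsto.add hx hy
        rw [add_zero] at this
        exact this.congr fun i => (hadd i x y).symm
      zero_mem' := by
        have h0 : ∀ i, S i 0 = 0 := by
          intro i
          have := hsmul i 0 0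
          simpa using this
        simp only [mem_ofPred_eq, h0]
        exact tendsto_const_nhds
      smul_mem' := by
        intro a x hx
        have := Tendsto.const_mul a hx
        rw [mul_zero] at this
        exact this.congr fun i => (hsmul i a x).symm }
  have hspan : Submodule.span ℂ (range (@fourier (1:ℝ))) ≤ W := by
    rw [Submodule.span_le]
    rintro _ ⟨n, rfl⟩
    exact hf n
  have hx : x ∈ (Submodule.span ℂ (range (@fourier (1:ℝ)))).topologicalClosure := by
    rw [span_fourier_closure_eq_top]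
    trivial
  rw [← SetLike.mem_coe, Submodule.topologicalClosure_coe, Metric.mem_closure_iff] at hx
  rw [Metric.tendsto_nhds]
  intro ε hε
  obtain ⟨y, hy, hxy⟩ := hx (ε / (2 * (|C| + 1))) (by positivity)
  have hyW : Tendsto (fun i => S i y) l (𝓝 0) := hspan hy
  have h1 := (Metric.tendsto_nhds.mp hyW) (ε / 2) (by positivity)
  filter_upwards [h1] with i hi
  rw [dist_zero_right] at hi ⊢
  have h2 : S i x = S i (x - y) + S i y := by
    rw [← hadd, sub_add_cancel]
  have h3 : ‖S i (x - y)‖ ≤ ε / 2 := by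
    refine (hbd i _).trans ?_
    rw [dist_eq_norm] at hxy
    calc C * ‖x - y‖ ≤ (|C| + 1) * ‖x - y‖ := by
          apply mul_le_mul_of_nonneg_right _ (norm_nonneg _)
          linarith [le_abs_self C]
      _ ≤ (|C| + 1) * (ε / (2 * (|C| + 1))) := by
          apply mul_le_mul_of_nonneg_left hxy.le (by positivity)
      _ = ε / 2 := by
          have : |C| + 1 ≠ 0 := by positivity
          field_simp
  rw [h2]
  calc ‖S i (x - y) + S i y‖ ≤ ‖S i (x - y)‖ + ‖S i y‖ := norm_add_le _ _
    _ < ε := by linarith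

theorem norm_fourier_le (n : ℤ) (y : AddCircle (1:ℝ)) : ‖(fourier n y : ℂ)‖ = 1 := by
  rw [fourier_apply]
  exact Circle.norm_coe _

theorem raj_cont (ν : Measure (AddCircle (1:ℝ))) [IsFiniteMeasure ν]
    (hν : Tendsto (fun n : ℤ => ∫ y, (fourier n y : ℂ) ∂ν) cofinite (𝓝 0))
    (g : C(AddCircle (1:ℝ), ℂ)) :
    Tendsto (fun n : ℤ => ∫ y, (fourier n y : ℂ) * g y ∂ν) cofinite (𝓝 0) := by
  have hint : ∀ (n : ℤ) (g : C(AddCircle (1:ℝ), ℂ)), Integrable (fun y => (fourier n y : ℂ) * g y) ν := by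
    intro n g
    have hc : Continuous (fun y => (fourier n y : ℂ) * g y) := by fun_prop
    exact hc.integrable_of_hasCompactSupport (HasCompactSupport.of_compactSpace _)
  refine gen (l := cofinite) (fun (n : ℤ) g => ∫ y, (fourier n y : ℂ) * g y ∂ν)
    (C := ν.real univ) ?_ ?_ ?_ ?_ g
  · intro n x y
    rw [← integral_add (hint n x) (hint n y)]
    congr 1
    ext z
    simp only [ContinuousMap.add_apply]
    ring
  · intro n a x
    rw [← integral_const_mul]
    congr 1
    ext z
    simp only [ContinuousMap.smul_apply, smul_eq_mul]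
    ring
  · intro n x
    refine (norm_integral_le_of_norm_le_const (C := ‖x‖) (Eventually.of_forall fun y => ?_)).trans ?_
    · rw [norm_mul, norm_fourier_le, one_mul]
      exact x.norm_coe_le_norm y
    · rw [mul_comm]
  · intro m
    have h1 : ∀ n : ℤ, ∫ y, (fourier n y : ℂ) * (fourier m y : ℂ) ∂ν = ∫ y, (fourier (n + m) y : ℂ) ∂ν := by
      intro n
      congr 1
      ext y
      rw [fourier_add]
    simp only [h1]
    have h2 : Tendsto (fun n : ℤ => n + m) cofinite cofinite :=
      (add_left_injective m).tendsto_cofinite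
    exact hν.comp h2

theorem raj_set (ν : Measure (AddCircle (1:ℝ))) [IsFiniteMeasure ν]
    (hν : Tendsto (fun n : ℤ => ∫ y, (fourier n y : ℂ) ∂ν) cofinite (𝓝 0))
    {F : Set (AddCircle (1:ℝ))} (hF : MeasurableSet F) :
    Tendsto (fun n : ℤ => ∫ y in F, (fourier n y : ℂ) ∂ν) cofinite (𝓝 0) := by
  have hcont : ∀ n : ℤ, Continuous (fun y : AddCircle (1:ℝ) => (fourier n y : ℂ)) := fun n => by fun_prop
  set f : AddCircle (1:ℝ) → ℂ := F.indicator (fun _ => 1) with hf
  have hfi : Integrable f ν := (integrable_const (1:ℂ)).indicator hF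
  rw [Metric.tendsto_nhds]
  intro ε hε
  obtain ⟨g, hg, hgi⟩ := hfi.exists_boundedContinuous_integral_sub_le (ε := ε / 2) (by positivity)
  have h1 := (Metric.tendsto_nhds.mp (raj_cont ν hν g.toContinuousMap)) (ε / 2) (by positivity)
  filter_upwards [h1] with n hn
  rw [dist_zero_right] at hn ⊢
  have hbd : ∀ h : AddCircle (1:ℝ) → ℂ, Integrable h ν → Integrable (fun y => (fourier n y : ℂ) * h y) ν := by
    intro h hh
    refine hh.bdd_mul (hcont n).aestronglyMeasurable (c := 1) (Eventually.of_forall fun y => ?_)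
    rw [norm_fourier_le]
  have h2 : ∫ y in F, (fourier n y : ℂ) ∂ν = ∫ y, (fourier n y : ℂ) * f y ∂ν := by
    rw [← integral_indicator hF]
    congr 1
    ext y
    by_cases hy : y ∈ F
    · simp [hf, indicator_of_mem hy]
    · simp [hf, indicator_of_notMem hy]
  have h3 : ∫ y, (fourier n y : ℂ) * f y ∂ν = ∫ y, (fourier n y : ℂ) * (f y - g y) ∂ν +
      ∫ y, (fourier n y : ℂ) * g y ∂ν := by
    rw [← integral_add (hbd (fun y => f y - g y) (hfi.sub hgi)) (hbd (fun y => g y) hgi)]
    congr 1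
    ext y
    ring
  have h4 : ‖∫ y, (fourier n y : ℂ) * (f y - g y) ∂ν‖ ≤ ε / 2 := by
    refine (norm_integral_le_integral_norm _).trans ?_
    refine le_trans (le_of_eq ?_) hg
    congr 1
    ext y
    rw [norm_mul, norm_fourier_le, one_mul]
  rw [h2, h3]
  calc _ ≤ ‖∫ y, (fourier n y : ℂ) * (f y - g y) ∂ν‖ + ‖∫ y, (fourier n y : ℂ) * g y ∂ν‖ := norm_add_le _ _
    _ < ε := by
      have : ‖∫ y, (fourier n y : ℂ) * g y ∂ν‖ < ε / 2 := hn
      linarith

theorem raj_circle_null (ν : Measure (AddCircle (1:ℝ))) [IsFiniteMeasure ν]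
    (hν : Tendsto (fun n : ℤ => ∫ y, (fourier n y : ℂ) ∂ν) cofinite (𝓝 0))
    {M : ℕ → ℤ} (hM : Tendsto M atTop atTop) {γ : ℕ → ℤ → ℂ} {g : ℤ → ℝ} (hg : Summable g)
    (hγ : ∀ k j, ‖γ k j‖ ≤ g j) {γ0 : ℂ} (hγ0 : γ0 ≠ 0) (hγ1 : ∀ k, γ k 0 = γ0)
    {F : Set (AddCircle (1:ℝ))} (hF : MeasurableSet F)
    (hK : ∀ y ∈ F, ∀ k, ∑' j : ℤ, γ k j * (fourier (j * M k) y : ℂ) = 0) : ν F = 0 := by
  have hγs : ∀ k, Summable fun j : ℤ => ‖γ k j‖ := fun k =>
    Summable.of_nonneg_of_le (fun _ => norm_nonneg _) (hγ k) hg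
  have h1 : ∀ k, HasSum (fun j : ℤ => ∫ y in F, γ k j * (fourier (j * M k) y : ℂ) ∂ν) 0 := by
    intro k
    have h2 := hasSum_integral_of_summable_integral_norm (μ := ν.restrict F)
      (F := fun (j : ℤ) y => γ k j * (fourier (j * M k) y : ℂ)) (fun j => by
        have hc : Continuous (fun y : AddCircle (1:ℝ) => γ k j * (fourier (j * M k) y : ℂ)) := by fun_prop
        exact hc.integrable_of_hasCompactSupport (HasCompactSupport.of_compactSpace _)) (by
        have : ∀ j : ℤ, ∫ y in F, ‖γ k j * (fourier (j * M k) y : ℂ)‖ ∂ν = ‖γ k j‖ * ν.real F := by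
          intro j
          simp only [norm_mul, norm_fourier_le, mul_one]
          rw [setIntegral_const, smul_eq_mul, mul_comm]
        simp only [this]
        exact (hγs k).mul_right _)
    have h3 : ∫ y in F, ∑' j : ℤ, γ k j * (fourier (j * M k) y : ℂ) ∂ν = 0 := by
      rw [setIntegral_congr_fun hF (g := fun _ => (0:ℂ)) (fun y hy => hK y hy k)]
      simp
    rwa [h3] at h2
  have hlim : Tendsto (fun k => ∑' j : ℤ, ∫ y in F, γ k j * (fourier (j * M k) y : ℂ) ∂ν) atTop
      (𝓝 (γ0 * (ν.real F : ℂ))) := by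
    have h3 : γ0 * (ν.real F : ℂ) = ∑' j : ℤ, if j = 0 then γ0 * (ν.real F : ℂ) else 0 := by
      rw [tsum_ite_eq]
    rw [h3]
    have hbd : ∀ k j, ‖∫ y in F, (fourier (j * M k) y : ℂ) ∂ν‖ ≤ ν.real F := by
      intro k j
      have := norm_setIntegral_le_of_norm_le_const (μ := ν) (s := F)
        (f := fun y => (fourier (j * M k) y : ℂ)) (C := 1) (measure_lt_top _ _)
        (fun y _ => (norm_fourier_le _ _).le)
      simpa using this
    apply tendsto_tsum_of_dominated_convergence (bound := fun j : ℤ => g j * ν.real F)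
      (hg.mul_right _)
    · intro j
      split_ifs with hj
      · subst hj
        simp only [zero_mul, fourier_zero, mul_one, hγ1]
        rw [setIntegral_const]
        simp only [Complex.real_smul]
        rw [mul_comm]
        exact tendsto_const_nhds
      · simp only [integral_const_mul]
        have h4 : Tendsto (fun k => j * M k) atTop cofinite := by
          have h5 : Tendsto M atTop cofinite := hM.mono_right atTop_le_cofinite
          exact ((mul_right_injective₀ hj).tendsto_cofinite).comp h5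
        have h6 := (((raj_set ν hν hF).comp h4).norm).const_mul (g j)
        rw [norm_zero, mul_zero] at h6
        rw [tendsto_zero_iff_norm_tendsto_zero]
        refine squeeze_zero (fun _ => norm_nonneg _) (fun k => ?_) h6
        rw [norm_mul]
        exact mul_le_mul_of_nonneg_right (hγ k j) (norm_nonneg _)
    · refine Eventually.of_forall fun k j => ?_
      rw [integral_const_mul, norm_mul]
      exact mul_le_mul (hγ k j) (hbd k j) (norm_nonneg _) ((norm_nonneg _).trans (hγ k j))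
  have hz : ∀ k, ∑' j : ℤ, ∫ y in F, γ k j * (fourier (j * M k) y : ℂ) ∂ν = 0 := fun k => (h1 k).tsum_eq
  simp only [hz] at hlim
  have h6 := tendsto_nhds_unique hlim tendsto_const_nhds
  rcases mul_eq_zero.mp h6 with h | h
  · exact absurd h hγ0
  · have h7 : ν.real F = 0 := by exact_mod_cast h
    exact (measureReal_eq_zero_iff).mp h7

theorem E_eq (n : ℤ) (x : ℝ) : E n x = fourier n (x : AddCircle (1:ℝ)) := by
  rw [fourier_coe_apply, E]
  congr 1
  push_cast
  ring

/-- Rajchman's theorem, for multipliers. -/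
theorem raj_null {μ : Measure ℝ} [IsFiniteMeasure μ]
    (hμ : Tendsto (fun n : ℤ => ∫ x, E n x ∂μ) cofinite (𝓝 0)) {M : ℕ → ℤ}
    (hM : Tendsto M atTop atTop) {γ : ℕ → ℤ → ℂ} {g : ℤ → ℝ} (hg : Summable g)
    (hγ : ∀ k j, ‖γ k j‖ ≤ g j) {γ0 : ℂ} (hγ0 : γ0 ≠ 0) (hγ1 : ∀ k, γ k 0 = γ0) :
    μ {x | ∀ k, lam (γ k) (M k * x) = 0} = 0 := by
  have hγs : ∀ k, Summable fun j : ℤ => ‖γ k j‖ := fun k =>
    Summable.of_nonneg_of_le (fun _ => norm_nonneg _) (hγ k) hg
  have hmk : Measurable (fun x : ℝ => (x : AddCircle (1:ℝ))) := (AddCircle.continuous_mk' 1).measurable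
  set ν := μ.map (fun x : ℝ => (x : AddCircle (1:ℝ))) with hν
  set F : Set (AddCircle (1:ℝ)) := {y | ∀ k, ∑' j : ℤ, γ k j * (fourier (j * M k) y : ℂ) = 0} with hF
  have hFm : MeasurableSet F := by
    rw [hF, ofPred_forall]
    apply MeasurableSet.iInter
    intro k
    have hc : Continuous (fun y : AddCircle (1:ℝ) => ∑' j : ℤ, γ k j * (fourier (j * M k) y : ℂ)) := by
      refine continuous_tsum (fun j => by fun_prop) (hγs k) (fun j y => ?_)
      rw [norm_mul, norm_fourier_le, mul_one]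
    exact (isClosed_singleton.preimage hc).measurableSet
  have h1 : {x : ℝ | ∀ k, lam (γ k) (M k * x) = 0} = (fun x : ℝ => (x : AddCircle (1:ℝ))) ⁻¹' F := by
    ext x
    simp only [mem_ofPred_eq, mem_preimage, hF]
    apply forall_congr'
    intro k
    unfold lam
    have : ∀ j : ℤ, γ k j * E j (M k * x) = γ k j * (fourier (j * M k) (x : AddCircle (1:ℝ)) : ℂ) := by
      intro j
      rw [← E_eq, Pool.Agent.Y249.SU.E_mul]
    simp only [this]
  rw [h1, ← Measure.map_apply hmk hFm]
  apply raj_circle_null _ _ hM hg hγ hγ0 hγ1 hFm (fun y hy => hy)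
  refine hμ.congr fun n => ?_
  rw [integral_map hmk.aemeasurable (by
    have hc : Continuous (fun y : AddCircle (1:ℝ) => (fourier n y : ℂ)) := by fun_prop
    exact hc.aestronglyMeasurable)]
  congr 1
  ext x
  exact E_eq n x

theorem vol_null {M : ℕ → ℤ}
    (hM : Tendsto M atTop atTop) {γ : ℕ → ℤ → ℂ} {g : ℤ → ℝ} (hg : Summable g)
    (hγ : ∀ k j, ‖γ k j‖ ≤ g j) {γ0 : ℂ} (hγ0 : γ0 ≠ 0) (hγ1 : ∀ k, γ k 0 = γ0) :
    volume {x : ℝ | ∀ k, lam (γ k) (M k * x) = 0} = 0 := by
  have h1 : ∀ m : ℤ, (volume.restrict (Ioc (m:ℝ) (m + 1))) {x : ℝ | ∀ k, lam (γ k) (M k * x) = 0} = 0 := by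
    intro m
    apply raj_null _ hM hg hγ hγ0 hγ1
    apply tendsto_const_nhds.congr'
    have h2 : ∀ᶠ n : ℤ in cofinite, n ≠ 0 := eventually_cofinite_ne 0
    filter_upwards [h2] with n hn
    rw [← intervalIntegral.integral_of_le (by linarith)]
    have hper : Function.Periodic (E n) 1 := by
      intro x
      rw [Pool.Agent.Y249.SU.E_add, Pool.Agent.Y249.SU.E_one, mul_one]
    rw [hper.intervalIntegral_add_eq (m:ℝ) 0, zero_add, Pool.Agent.Y249.SU.integral_E_unit n hn]
  set W : Set ℝ := {x : ℝ | ∀ k, lam (γ k) (M k * x) = 0} with hW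
  have h2 : W = ⋃ m : ℤ, W ∩ Ioc (m:ℝ) (m + 1) := by
    rw [← inter_iUnion, iUnion_Ioc_intCast, inter_univ]
  rw [h2]
  apply measure_iUnion_null
  intro m
  have h3 := h1 m
  rwa [Measure.restrict_apply' measurableSet_Ioc] at h3

end Pool.Agent.H292LU
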