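import Pool.Agent.H292_LU.Bdd
import Pool.Agent.H292_LU.Null
import Pool.Agent.Y967.MU.BUMP

/-!
# Countable unions of sets avoided by multipliers along dilations are sets of uniqueness
(Rajchman, Bary)
-/

set_option autoImplicit false

open MeasureTheory Filter Topology Set

namespace Pool.Agent.H292LU

open Pool.Agent.Y249.SU

/-- The set avoided by the multipliers `γ k` along the dilations `M k`. -/
def KS (γ : ℕ → ℤ → ℂ) (M : ℕ → ℤ) : Set ℝ := {x | ∀ k, lam (γ k) (M k * x) = 0}

theorem E_int (j m : ℤ) : E j (m : ℝ) = 1 := by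
  rw [E]
  have : (2 * (Real.pi : ℂ) * Complex.I * (j : ℂ) * ((m : ℝ) : ℂ)) =
      ((j * m : ℤ) : ℂ) * (2 * Real.pi * Complex.I) := by
    push_cast
    ring
  rw [this, Complex.exp_int_mul_two_pi_mul_I]

theorem lam_int (γ : ℤ → ℂ) (x : ℝ) (m : ℤ) : lam γ (x + m) = lam γ x := by
  unfold lam
  congr 1
  ext j
  rw [E_add, E_int, mul_one]

theorem S_int (c : ℤ → ℂ) (N : ℕ) (x : ℝ) (m : ℤ) : S c N (x + m) = S c N x := by
  unfold S
  apply Finset.sum_congr rfl
  intro n _
  rw [E_add, E_int, mul_one]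

theorem KS_int {γ : ℕ → ℤ → ℂ} {M : ℕ → ℤ} {x : ℝ} (m : ℤ) : x + m ∈ KS γ M ↔ x ∈ KS γ M := by
  unfold KS
  simp only [mem_ofPred_eq]
  apply forall_congr'
  intro k
  have h6 : (M k : ℝ) * (x + m) = M k * x + ((M k * m : ℤ) : ℝ) := by
    push_cast
    ring
  rw [h6, lam_int]

theorem continuous_lam {γ : ℤ → ℂ} (hγ : Summable fun j : ℤ => ‖γ j‖) : Continuous (lam γ) := by
  unfold lam
  refine continuous_tsum (fun j => (continuous_E j).const_mul _) hγ (fun j x => ?_)
  rw [norm_mul, norm_E, mul_one]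

theorem isClosed_KS {γ : ℕ → ℤ → ℂ} (hγ : ∀ k, Summable fun j : ℤ => ‖γ k j‖) (M : ℕ → ℤ) :
    IsClosed (KS γ M) := by
  unfold KS
  rw [ofPred_forall]
  apply isClosed_iInter
  intro k
  exact isClosed_singleton.preimage ((continuous_lam (hγ k)).comp (continuous_const.mul continuous_id))

theorem bdd_of_tendsto {a : ℕ → ℂ} {L : ℂ} (h : Tendsto a atTop (𝓝 L)) : ∃ C : ℝ, ∀ N, ‖a N‖ ≤ C := by
  obtain ⟨C, hC⟩ := (Metric.isBounded_range_of_tendsto _ h).exists_norm_le
  exact ⟨C, fun n => hC _ ⟨n, rfl⟩⟩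

theorem tendsto_natAbs : Tendsto Int.natAbs cofinite atTop := by
  rw [tendsto_atTop]
  intro b
  rw [Filter.eventually_cofinite]
  refine (Set.finite_Ioo (-(b:ℤ)) b).subset ?_
  intro m hm
  simp only [mem_ofPred_eq, not_le] at hm
  rw [mem_Ioo]
  omega

theorem le_D_natAbs (c : ℤ → ℂ) (m : ℤ) : ‖c m‖ ≤ D c m.natAbs := by
  rcases Int.natAbs_eq m with h | h
  · conv_lhs => rw [h]
    exact le_D c _
  · conv_lhs => rw [h]
    exact le_D' c _

theorem cofinite_P {γ c : ℤ → ℂ} {B : ℝ} (hγ : Summable fun j : ℤ => ‖γ j‖) (hB : ∀ n, ‖c n‖ ≤ B)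
    (hc : Tendsto c cofinite (𝓝 0)) : Tendsto (P γ c 1) cofinite (𝓝 0) := by
  unfold P
  have h0 : (0 : ℂ) = ∑' j : ℤ, (0 : ℂ) := by simp
  rw [h0]
  apply tendsto_tsum_of_dominated_convergence (bound := fun j : ℤ => ‖γ j‖ * B) (hγ.mul_right B)
  · intro j
    have h1 : Tendsto (fun m : ℤ => m - j * 1) cofinite cofinite := by
      apply Function.Injective.tendsto_cofinite
      intro a b hab
      simpa using hab
    have := (hc.comp h1).const_mul (γ j)
    rwa [mul_zero] at this
  · refine Eventually.of_forall fun m j => ?_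
    rw [norm_mul]
    exact mul_le_mul_of_nonneg_left (hB _) (norm_nonneg _)

theorem nat_of_cofinite {c : ℤ → ℂ} (hc : Tendsto c cofinite (𝓝 0)) :
    Tendsto (fun n : ℕ => c n) atTop (𝓝 0) := by
  have h1 : Tendsto (fun n : ℕ => (n : ℤ)) atTop cofinite := by
    rw [← Nat.cofinite_eq_atTop]
    exact Nat.cast_injective.tendsto_cofinite
  exact hc.comp h1

theorem neg_of_cofinite {c : ℤ → ℂ} (hc : Tendsto c cofinite (𝓝 0)) :
    Tendsto (fun n : ℕ => c (-n)) atTop (𝓝 0) := by
  have h1 : Tendsto (fun n : ℕ => (-n : ℤ)) atTop cofinite := by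
    rw [← Nat.cofinite_eq_atTop]
    apply Function.Injective.tendsto_cofinite
    intro a b hab
    simpa using hab
  exact hc.comp h1

/-- A localising multiplier. -/
theorem exists_loc (x0 : ℝ) {δ : ℝ} (hδ : 0 < δ) : ∃ γ : ℤ → ℂ,
    (Summable fun j : ℤ => (1 + |(j : ℝ)|) * ‖γ j‖) ∧ lam γ x0 ≠ 0 ∧
    ∀ x, lam γ x ≠ 0 → ∃ m : ℤ, |x + m - x0| < δ := by
  obtain ⟨γ, hγ, hγ0, hv⟩ := Pool.Agent.Y967.MU.BUMP.t_BUMP 0 (min δ 1) le_rfl (by positivity)
    (min_le_right _ _)
  have hfr : ∀ x, lam γ x ≠ 0 → Int.fract x ∈ Ioo (0:ℝ) (min δ 1) := by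
    intro x hx
    by_contra hcon
    apply hx
    have h1 : lam γ x = lam γ (Int.fract x) := by
      conv_lhs => rw [← Int.fract_add_floor x]
      rw [lam_int]
    rw [h1]
    exact hv _ ⟨Int.fract_nonneg _, (Int.fract_lt_one _).le⟩ hcon
  obtain ⟨y, hy⟩ : ∃ y, lam γ y ≠ 0 := by
    by_contra hcon
    push Not at hcon
    have h1 := vol_null (M := fun k => (k:ℤ)) tendsto_natCast_atTop_atTop (γ := fun _ => γ)
      (summable_norm_gamma hγ) (fun _ _ => le_rfl) hγ0 (fun _ => rfl)
    have h2 : {x : ℝ | ∀ k : ℕ, lam γ (((k:ℤ) : ℝ) * x) = 0} = univ := by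
      ext x
      simp [hcon]
    rw [h2] at h1
    simp at h1
  set y0 := Int.fract y with hy0
  have hy1 : lam γ y0 ≠ 0 := by
    have h1 : lam γ y = lam γ (Int.fract y) := by
      conv_lhs => rw [← Int.fract_add_floor y]
      rw [lam_int]
    rw [hy0, ← h1]
    exact hy
  have hy2 : y0 ∈ Ioo (0:ℝ) (min δ 1) := hfr y hy
  have htr : ∀ x, lam (fun j => γ j * E j (y0 - x0)) x = lam γ (x - x0 + y0) := by
    intro x
    unfold lam
    congr 1
    ext j
    rw [show x - x0 + y0 = (y0 - x0) + x by ring, E_add]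
    ring
  refine ⟨fun j => γ j * E j (y0 - x0), ?_, ?_, ?_⟩
  · refine hγ.congr fun j => ?_
    rw [norm_mul, norm_E, mul_one]
  · rw [htr, sub_self, zero_add]
    exact hy1
  · intro x hx
    rw [htr] at hx
    have h1 := hfr _ hx
    refine ⟨-⌊x - x0 + y0⌋, ?_⟩
    have h2 : x + ((-⌊x - x0 + y0⌋ : ℤ) : ℝ) - x0 = Int.fract (x - x0 + y0) - y0 := by
      rw [Int.fract]
      push_cast
      ring
    rw [h2, abs_lt]
    have h3 : min δ 1 ≤ δ := min_le_left _ _
    constructor <;> linarith [h1.1, h1.2, hy2.1, hy2.2]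

/-- A trigonometric series with partial sums that tend to zero almost everywhere and are bounded
at every point outside a countable union of sets `KS` vanishes. -/
theorem bary {γ : ℕ → ℕ → ℤ → ℂ} {M : ℕ → ℕ → ℤ} (hM : ∀ i, Tendsto (M i) atTop atTop)
    {g : ℕ → ℤ → ℝ} (hg : ∀ i, Summable fun j : ℤ => (1 + |(j : ℝ)|) * g i j)
    (hγg : ∀ i k j, ‖γ i k j‖ ≤ g i j) {γ0 : ℕ → ℂ} (hγ0 : ∀ i, γ0 i ≠ 0)
    (hγ1 : ∀ i k, γ i k 0 = γ0 i)
    {c : ℤ → ℂ} (hc : ∀ x : ℝ, (∀ i, x ∉ KS (γ i) (M i)) → ∃ C : ℝ, ∀ N : ℕ, ‖S c N x‖ ≤ C)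
    (hae : ∀ᵐ x : ℝ, Tendsto (fun N : ℕ => S c N x) atTop (𝓝 0)) (n : ℤ) : c n = 0 := by
  have hg0 : ∀ i j, 0 ≤ g i j := fun i j => (norm_nonneg _).trans (hγg i 0 j)
  have hgs : ∀ i, Summable (g i) := by
    intro i
    refine Summable.of_nonneg_of_le (hg0 i) (fun j => ?_) (hg i)
    have := abs_nonneg (j : ℝ)
    nlinarith [hg0 i j]
  have hγ : ∀ i k, Summable fun j : ℤ => (1 + |(j : ℝ)|) * ‖γ i k j‖ := by
    intro i k
    refine Summable.of_nonneg_of_le (fun j => by positivity) (fun j => ?_) (hg i)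
    exact mul_le_mul_of_nonneg_left (hγg i k j) (by positivity)
  have hD := cantor_lebesgue_ae hae
  obtain ⟨B, hB'⟩ := (Metric.isBounded_range_of_tendsto _ hD).exists_norm_le
  have hB : ∀ n, ‖c n‖ ≤ B := by
    intro n
    refine (le_D_natAbs c n).trans ((le_abs_self _).trans ?_)
    exact hB' _ ⟨_, rfl⟩
  have hcz : Tendsto c cofinite (𝓝 0) := by
    rw [tendsto_zero_iff_norm_tendsto_zero]
    exact squeeze_zero (fun _ => norm_nonneg _) (fun n => le_D_natAbs c n) (hD.comp tendsto_natAbs)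
  by_cases hG : ∀ x, ∃ C : ℝ, ∀ N : ℕ, ‖S c N x‖ ≤ C
  · exact cantor_bdd hB hG hae n
  exfalso
  set G : Set ℝ := {x | ¬ ∃ C : ℝ, ∀ N : ℕ, ‖S c N x‖ ≤ C} with hGdef
  have hGne : G.Nonempty := by
    push Not at hG
    obtain ⟨x, hx⟩ := hG
    refine ⟨x, ?_⟩
    rw [hGdef, mem_ofPred_eq]
    push Not
    exact hx
  -- the Baire category step
  obtain ⟨i, V, hVo, x0, hx0V, hx0G, hVG⟩ : ∃ i, ∃ V : Set ℝ, IsOpen V ∧ ∃ x0, x0 ∈ V ∧ x0 ∈ G ∧
      ∀ x ∈ V, x ∈ G → x ∈ KS (γ i) (M i) := by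
    have hcl : IsClosed (closure G) := isClosed_closure
    have : CompleteSpace (closure G) := hcl.completeSpace_coe
    have : Nonempty (closure G) := hGne.closure.to_subtype
    set f : ℕ ⊕ ℕ → Set (closure G) := Sum.elim (fun i => {x | (x:ℝ) ∈ KS (γ i) (M i)})
      (fun C => {x | ∀ N : ℕ, ‖S c N (x:ℝ)‖ ≤ C}) with hf
    have hcont : ∀ N : ℕ, Continuous (fun x : closure G => ‖S c N (x:ℝ)‖) := by
      intro N
      have h1 : Continuous (S c N) := by
        unfold S
        exact continuous_finsetSum _ fun n _ => (continuous_E n).const_mul _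
      exact (h1.comp continuous_subtype_val).norm
    have hfc : ∀ s, IsClosed (f s) := by
      rintro (i | C)
      · exact (isClosed_KS (fun k => summable_norm_gamma (hγ i k)) (M i)).preimage
          continuous_subtype_val
      · show IsClosed {x : closure G | ∀ N : ℕ, ‖S c N (x:ℝ)‖ ≤ C}
        rw [ofPred_forall]
        exact isClosed_iInter fun N => isClosed_le (hcont N) continuous_const
    have hfu : ⋃ s, f s = univ := by
      rw [eq_univ_iff_forall]
      intro x
      rw [mem_iUnion]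
      by_cases hx : (x:ℝ) ∈ G
      · by_contra hcon
        push Not at hcon
        apply hx
        exact hc x (fun i hi => hcon (Sum.inl i) hi)
      · obtain ⟨C, hC⟩ : ∃ C : ℝ, ∀ N : ℕ, ‖S c N (x:ℝ)‖ ≤ C := not_not.mp hx
        obtain ⟨k, hk⟩ := exists_nat_ge C
        exact ⟨Sum.inr k, fun N => (hC N).trans hk⟩
    obtain ⟨s, x, hx⟩ := nonempty_interior_of_iUnion_of_closed hfc hfu
    obtain ⟨V, hVo, hV⟩ := isOpen_induced_iff.mp (isOpen_interior (s := f s))
    have hxV : (x:ℝ) ∈ V := by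
      have : x ∈ (Subtype.val ⁻¹' V : Set (closure G)) := by rw [hV]; exact hx
      exact this
    obtain ⟨x0, hx0V, hx0G⟩ := mem_closure_iff.mp x.2 V hVo hxV
    have hin : ∀ y (hy : y ∈ V) (hyG : y ∈ G), (⟨y, subset_closure hyG⟩ : closure G) ∈ f s := by
      intro y hy hyG
      apply interior_subset
      rw [← hV]
      exact hy
    rcases s with i | C
    · exact ⟨i, V, hVo, x0, hx0V, hx0G, fun y hy hyG => hin y hy hyG⟩
    · exact absurd ⟨(C:ℝ), hin x0 hx0V hx0G⟩ hx0G
  obtain ⟨δ, hδ, hball⟩ := Metric.isOpen_iff.mp hVo x0 hx0V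
  obtain ⟨φ, hφ, hφ0, hφloc⟩ := exists_loc x0 hδ
  -- the first product
  set T : ℤ → ℂ := P φ c 1 with hT
  have hTP := tendsto_P hφ hB (nat_of_cofinite hcz) (neg_of_cofinite hcz) 1
  have hTz : Tendsto T cofinite (𝓝 0) := cofinite_P (summable_norm_gamma hφ) hB hcz
  have hTB := norm_P_le hφ hB 1
  -- the second product
  have hGint : ∀ (x : ℝ) (m : ℤ), x + (m:ℝ) ∈ G ↔ x ∈ G := by
    intro x m
    simp only [hGdef, mem_ofPred_eq, S_int]
  have hTbd : ∀ x, x ∉ KS (γ i) (M i) → ∃ C : ℝ, ∀ N : ℕ, ‖S T N x‖ ≤ C := by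
    intro x hx
    obtain ⟨C1, hC1⟩ := bdd_of_tendsto (hTP x)
    by_cases h0 : lam φ x = 0
    · refine ⟨C1, fun N => ?_⟩
      have := hC1 N
      rwa [Int.cast_one, one_mul, h0, zero_mul, sub_zero] at this
    · obtain ⟨m, hm⟩ := hφloc x h0
      have h1 : x + m ∈ V := hball (by rw [Metric.mem_ball, Real.dist_eq]; exact hm)
      have h2 : x + m ∉ G := fun h => hx ((KS_int m).mp (hVG _ h1 h))
      have h3 : x ∉ G := fun h => h2 ((hGint x m).mpr h)
      rw [hGdef, mem_ofPred_eq, not_not] at h3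
      obtain ⟨C2, hC2⟩ := h3
      refine ⟨C1 + ‖lam φ x‖ * C2, fun N => ?_⟩
      have h4 := hC1 N
      rw [Int.cast_one, one_mul] at h4
      have h5 : S T N x = (S T N x - lam φ x * S c N x) + lam φ x * S c N x := by ring
      rw [h5]
      refine (norm_add_le _ _).trans (add_le_add h4 ?_)
      rw [norm_mul]
      exact mul_le_mul_of_nonneg_left (hC2 N) (norm_nonneg _)
  have hTae : ∀ᵐ x : ℝ, Tendsto (fun N : ℕ => S T N x) atTop (𝓝 0) := by
    filter_upwards [hae] with x hx
    have h1 := (hTP x).add (hx.const_mul (lam φ (((1:ℤ):ℝ) * x)))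
    rw [mul_zero, add_zero] at h1
    refine h1.congr fun N => ?_
    ring
  have hP : ∀ k m, P (γ i k) T (M i k) m = 0 := by
    intro k
    have h3 := tendsto_P (hγ i k) hTB (nat_of_cofinite hTz) (neg_of_cofinite hTz) (M i k)
    apply cantor_bdd (norm_P_le (hγ i k) hTB (M i k))
    · intro x
      obtain ⟨C1, hC1⟩ := bdd_of_tendsto (h3 x)
      by_cases hx : x ∈ KS (γ i) (M i)
      · refine ⟨C1, fun N => ?_⟩
        have := hC1 N
        rwa [hx k, zero_mul, sub_zero] at this
      · obtain ⟨C2, hC2⟩ := hTbd x hx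
        refine ⟨C1 + ‖lam (γ i k) (M i k * x)‖ * C2, fun N => ?_⟩
        have h4 := hC1 N
        have h5 : S (P (γ i k) T (M i k)) N x = (S (P (γ i k) T (M i k)) N x -
          lam (γ i k) (M i k * x) * S T N x) + lam (γ i k) (M i k * x) * S T N x := by ring
        rw [h5]
        refine (norm_add_le _ _).trans (add_le_add h4 ?_)
        rw [norm_mul]
        exact mul_le_mul_of_nonneg_left (hC2 N) (norm_nonneg _)
    · filter_upwards [hTae] with x hx
      have h1 := (h3 x).add (hx.const_mul (lam (γ i k) (M i k * x)))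
      rw [mul_zero, add_zero] at h1
      refine h1.congr fun N => ?_
      ring
  -- pass to the limit
  have hTzero : ∀ n, T n = 0 := by
    intro n
    have hlim : Tendsto (fun k => P (γ i k) T (M i k) n) atTop (𝓝 (γ0 i * T n)) := by
      have h3 : γ0 i * T n = ∑' j : ℤ, if j = 0 then γ0 i * T n else 0 := by
        rw [tsum_ite_eq]
      rw [h3]
      unfold P
      apply tendsto_tsum_of_dominated_convergence
        (bound := fun j : ℤ => g i j * ((∑' j : ℤ, ‖φ j‖) * B))
        ((hgs i).mul_right _)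
      · intro j
        split_ifs with hj
        · subst hj
          simp only [zero_mul, sub_zero, hγ1]
          exact tendsto_const_nhds
        · have h4 : Tendsto (fun k => n - j * M i k) atTop cofinite := by
            have h5 : Tendsto (M i) atTop cofinite := (hM i).mono_right atTop_le_cofinite
            have h6 : Function.Injective (fun z : ℤ => n - j * z) := by
              intro a b hab
              have : j * a = j * b := by
                have := hab
                simp only at this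
                linarith
              exact mul_left_cancel₀ hj this
            exact h6.tendsto_cofinite.comp h5
          have := ((hTz.comp h4).norm).const_mul (g i j)
          rw [norm_zero, mul_zero] at this
          rw [tendsto_zero_iff_norm_tendsto_zero]
          refine squeeze_zero (fun _ => norm_nonneg _) (fun k => ?_) this
          rw [norm_mul]
          exact mul_le_mul_of_nonneg_right (hγg i k j) (norm_nonneg _)
      · refine Eventually.of_forall fun k j => ?_
        rw [norm_mul]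
        exact mul_le_mul (hγg i k j) (hTB _) (norm_nonneg _) (hg0 i j)
    simp only [hP] at hlim
    have h4 := tendsto_nhds_unique hlim tendsto_const_nhds
    rcases mul_eq_zero.mp h4 with h5 | h5
    · exact absurd h5 (hγ0 i)
    · exact h5
  -- contradiction at `x0`
  apply hx0G
  have h1 := hTP x0
  have h2 : ∀ N, S T N x0 = 0 := by
    intro N
    unfold S
    apply Finset.sum_eq_zero
    intro n _
    rw [hTzero, zero_mul]
  have h3 : Tendsto (fun N : ℕ => (- (lam φ x0)⁻¹) * (S T N x0 - lam φ (((1:ℤ):ℝ) * x0) * S c N x0)) atTop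
      (𝓝 0) := by
    have := h1.const_mul (- (lam φ x0)⁻¹)
    rwa [mul_zero] at this
  have h4 : Tendsto (fun N : ℕ => S c N x0) atTop (𝓝 0) := by
    refine h3.congr fun N => ?_
    rw [h2, Int.cast_one, one_mul]
    field_simp
    ring
  exact bdd_of_tendsto h4

end Pool.Agent.H292LU
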