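import Pool.Agent.H292_LU.Pot
import Pool.Agent.Y249.SU.Bump

/-!
# Uniqueness for trigonometric series with bounded partial sums that tend to zero almost everywhere
-/

set_option autoImplicit false

open MeasureTheory Filter Topology

namespace Pool.Agent.H292LU

open Pool.Agent.Y249.SU

theorem bounded_second {c : ℤ → ℂ} {B : ℝ} (hB : ∀ n, ‖c n‖ ≤ B) {x C : ℝ}
    (hC : ∀ N : ℕ, ‖S c N x‖ ≤ C) {h : ℝ} (hh : 0 < h) :
    ‖((6 / h ^ 2 : ℝ) : ℂ) * (cmean (FF c) h x - FF c x)‖ ≤ C := by
  have hpi := Real.pi_pos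
  have h1 := second_diff hB x hh
  have h2 : Tendsto (fun N => ‖∑ n ∈ Finset.range (N + 1), (v (2 * Real.pi * n * h) : ℂ) * A c n x‖)
      atTop (𝓝 ‖((6 / h ^ 2 : ℝ) : ℂ) * (cmean (FF c) h x - FF c x)‖) :=
    ((h1.tendsto_sum_nat).comp (tendsto_add_atTop_nat 1)).norm
  apply le_of_tendsto h2
  refine Eventually.of_forall fun N => ?_
  have h3 := partial_bound (A := fun n => A c n x) (w := fun n : ℕ => v (2 * Real.pi * n * h))
    (fun m n hmn => by
      apply v_anti (by positivity)
      have : (m : ℝ) ≤ n := by exact_mod_cast hmn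
      gcongr)
    (fun n => v_nonneg (by positivity)) (B := C) (ε := C)
    (fun n => by rw [← S_eq]; exact hC n) (n0 := 0) (fun n _ => by rw [← S_eq]; exact hC n)
    (N := N) (Nat.zero_le _)
  simpa [v_zero] using h3

theorem affine_FF' {c : ℤ → ℂ} {B : ℝ} (hB : ∀ n, ‖c n‖ ≤ B)
    (hbd : ∀ x, ∃ C : ℝ, ∀ N : ℕ, ‖S c N x‖ ≤ C)
    (hae : ∀ᵐ x : ℝ, Tendsto (fun N : ℕ => S c N x) atTop (𝓝 0)) :
    ∃ α β : ℂ, ∀ x : ℝ, FF c x = α * x + β := by
  have hcont := continuous_FF hB
  have hre : ∀ x h, mean (fun y => (FF c y).re) h x = (cmean (FF c) h x).re := by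
    intro x h
    unfold mean cmean
    rw [Complex.re_ofReal_mul]
    congr 1
    exact Complex.reCLM.intervalIntegral_comp_comm (hcont.intervalIntegrable _ _)
  have him : ∀ x h, mean (fun y => (FF c y).im) h x = (cmean (FF c) h x).im := by
    intro x h
    unfold mean cmean
    rw [Complex.im_ofReal_mul]
    congr 1
    exact Complex.imCLM.intervalIntegral_comp_comm (hcont.intervalIntegrable _ _)
  have e1 : ∀ x h : ℝ, 6 * (mean (fun y => (FF c y).re) h x - (FF c x).re) / h ^ 2 =
      (((6 / h ^ 2 : ℝ) : ℂ) * (cmean (FF c) h x - FF c x)).re := by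
    intro x h
    rw [Complex.re_ofReal_mul, Complex.sub_re, hre]
    ring
  have e2 : ∀ x h : ℝ, 6 * (mean (fun y => (FF c y).im) h x - (FF c x).im) / h ^ 2 =
      (((6 / h ^ 2 : ℝ) : ℂ) * (cmean (FF c) h x - FF c x)).im := by
    intro x h
    rw [Complex.im_ofReal_mul, Complex.sub_im, him]
    ring
  obtain ⟨α1, β1, h1⟩ := affine_of_bdd (F := fun y => (FF c y).re)
    (Complex.continuous_re.comp hcont) (by
      intro x
      obtain ⟨C, hC⟩ := hbd x
      refine ⟨C, ?_⟩
      filter_upwards [self_mem_nhdsWithin] with h hh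
      rw [e1]
      exact (Complex.abs_re_le_norm _).trans (bounded_second hB hC hh)) (by
      filter_upwards [hae] with x hx
      have := (Complex.continuous_re.tendsto 0).comp (tendsto_second hB hx)
      refine this.congr fun h => ?_
      simp only [Function.comp]
      rw [e1])
  obtain ⟨α2, β2, h2⟩ := affine_of_bdd (F := fun y => (FF c y).im)
    (Complex.continuous_im.comp hcont) (by
      intro x
      obtain ⟨C, hC⟩ := hbd x
      refine ⟨C, ?_⟩
      filter_upwards [self_mem_nhdsWithin] with h hh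
      rw [e2]
      exact (Complex.abs_im_le_norm _).trans (bounded_second hB hC hh)) (by
      filter_upwards [hae] with x hx
      have := (Complex.continuous_im.tendsto 0).comp (tendsto_second hB hx)
      refine this.congr fun h => ?_
      simp only [Function.comp]
      rw [e2])
  refine ⟨⟨α1, α2⟩, ⟨β1, β2⟩, fun x => ?_⟩
  apply Complex.ext
  · rw [h1]
    simp
  · rw [h2]
    simp

/-- Uniqueness for bounded partial sums. -/
theorem cantor_bdd {c : ℤ → ℂ} {B : ℝ} (hB : ∀ n, ‖c n‖ ≤ B)
    (hbd : ∀ x, ∃ C : ℝ, ∀ N : ℕ, ‖S c N x‖ ≤ C)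
    (hae : ∀ᵐ x : ℝ, Tendsto (fun N : ℕ => S c N x) atTop (𝓝 0)) (n : ℤ) : c n = 0 := by
  obtain ⟨α, β, hF⟩ := affine_FF' hB hbd hae
  have hQ : ∀ x : ℝ, Q c x = c 0 * ((x ^ 2 / 2 : ℝ) : ℂ) - α * x - β := by
    intro x
    have := hF x
    unfold FF at this
    rw [sub_sub, ← this]
    ring
  have hper : ∀ x : ℝ, c 0 * ((x : ℂ) + 1 / 2) = α := by
    intro x
    have h1 := Q_add_one c x
    rw [hQ, hQ] at h1
    push_cast at h1
    linear_combination h1
  have hc0 : c 0 = 0 := by
    have h1 := hper 0
    have h2 := hper 1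
    push_cast at h1 h2
    linear_combination h2 - h1
  have hα : α = 0 := by
    rw [← hper 0, hc0, zero_mul]
  have hQc : ∀ x : ℝ, Q c x = -β := by
    intro x
    rw [hQ, hc0, hα]
    ring
  -- the coefficients of the constant function
  have key : ∀ m : ℕ, ∀ s : ℤ, (s = 1 ∨ s = -1) → c (s * ((m + 1 : ℕ) : ℤ)) = 0 := by
    intro m s hs
    set k : ℤ := s * ((m + 1 : ℕ) : ℤ) with hk
    have hk0 : k ≠ 0 := by
      rcases hs with h | h <;> rw [hk, h] <;> push_cast <;> omega
    have hEs : ∀ (n : ℕ) (y : ℝ), A c (n + 1) y * E (-k) y =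
        c ((n + 1 : ℕ) : ℤ) * E (((n + 1 : ℕ) : ℤ) + -k) y +
        c (-((n + 1 : ℕ) : ℤ)) * E (-((n + 1 : ℕ) : ℤ) + -k) y := by
      intro n y
      rw [A_succ, E_add_left, E_add_left]
      ring
    have hint : ∀ n : ℕ, ∫ y in (0 : ℝ)..1, (q n : ℂ) * (A c (n + 1) y * E (-k) y) =
        if n = m then (q m : ℂ) * c k else 0 := by
      intro n
      simp only [hEs]
      rw [intervalIntegral.integral_const_mul, intervalIntegral.integral_add,
        intervalIntegral.integral_const_mul, intervalIntegral.integral_const_mul]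
      · split_ifs with hnm
        · subst hnm
          rcases hs with h | h
          · have e1 : ((n + 1 : ℕ) : ℤ) + -k = 0 := by rw [hk, h]; ring
            have e2 : -((n + 1 : ℕ) : ℤ) + -k ≠ 0 := by rw [hk, h]; push_cast; omega
            have e3 : k = ((n + 1 : ℕ) : ℤ) := by rw [hk, h]; ring
            rw [e1, integral_E_zero, integral_E_unit _ e2, e3]
            ring
          · have e1 : ((n + 1 : ℕ) : ℤ) + -k ≠ 0 := by rw [hk, h]; push_cast; omega
            have e2 : -((n + 1 : ℕ) : ℤ) + -k = 0 := by rw [hk, h]; ring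
            have e3 : k = -((n + 1 : ℕ) : ℤ) := by rw [hk, h]; ring
            rw [e2, integral_E_zero, integral_E_unit _ e1, e3]
            ring
        · have hnm' : (n : ℤ) ≠ m := by exact_mod_cast hnm
          have e1 : ((n + 1 : ℕ) : ℤ) + -k ≠ 0 := by
            rcases hs with h | h <;> rw [hk, h] <;> push_cast <;> omega
          have e2 : -((n + 1 : ℕ) : ℤ) + -k ≠ 0 := by
            rcases hs with h | h <;> rw [hk, h] <;> push_cast <;> omega
          rw [integral_E_unit _ e1, integral_E_unit _ e2]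
          ring
      · exact ((continuous_E _).const_mul _).intervalIntegrable _ _
      · exact ((continuous_E _).const_mul _).intervalIntegrable _ _
    have h1 := intervalIntegral.hasSum_integral_of_dominated_convergence
      (μ := volume) (a := (0 : ℝ)) (b := 1)
      (F := fun (n : ℕ) (y : ℝ) => (q n : ℂ) * (A c (n + 1) y * E (-k) y))
      (f := fun y => Q c y * E (-k) y)
      (fun (n : ℕ) (_ : ℝ) => q n * (2 * B))
      (fun n => (((continuous_A c (n + 1)).mul (continuous_E _)).const_mul _).aestronglyMeasurable)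
      (fun n => Eventually.of_forall fun y _ => by
        rw [← mul_assoc, norm_mul, norm_E, mul_one]
        exact norm_term_le hB n y)
      (Eventually.of_forall fun y _ => summable_q.mul_right _)
      (by exact _root_.intervalIntegrable_const)
      (Eventually.of_forall fun y _ => by
        have := (hasSum_Q hB y).mul_right (E (-k) y)
        simpa only [mul_assoc] using this)
    simp only [hint] at h1
    have h2 := h1.unique (hasSum_ite_eq m ((q m : ℂ) * c k))
    have h3 : ∫ y in (0 : ℝ)..1, Q c y * E (-k) y = 0 := by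
      simp only [hQc]
      rw [intervalIntegral.integral_const_mul, integral_E_unit _ (by omega), mul_zero]
    rw [h3] at h2
    have h4 : (q m : ℂ) ≠ 0 := Complex.ofReal_ne_zero.mpr (q_pos m).ne'
    rcases mul_eq_zero.mp h2.symm with h5 | h5
    · exact absurd h5 h4
    · exact h5
  rcases lt_trichotomy n 0 with h | h | h
  · obtain ⟨m, hm⟩ : ∃ m : ℕ, n = -1 * ((m + 1 : ℕ) : ℤ) := ⟨(-n - 1).toNat, by push_cast; omega⟩
    rw [hm]
    exact key m (-1) (Or.inr rfl)
  · rw [h, hc0]
  · obtain ⟨m, hm⟩ : ∃ m : ℕ, n = 1 * ((m + 1 : ℕ) : ℤ) := ⟨(n - 1).toNat, by push_cast; omega⟩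
    rw [hm]
    exact key m 1 (Or.inl rfl)

/-- The Cantor-Lebesgue theorem, almost everywhere version. -/
theorem cantor_lebesgue_ae {c : ℤ → ℂ}
    (h : ∀ᵐ x : ℝ, Tendsto (fun N : ℕ => S c N x) atTop (𝓝 0)) :
    Tendsto (D c) atTop (𝓝 0) := by
  obtain ⟨a, b, hab⟩ : ∃ a b : ℝ, a < b := ⟨0, 1, one_pos⟩
  rw [Metric.tendsto_atTop']
  intro ε hε
  have hba : 0 < b - a := by linarith
  -- the normalised terms
  set G : ℕ → ℝ → ℝ := fun n x => if ε ≤ D c n then ‖A c n x‖ ^ 2 / D c n ^ 2 else 0 with hG
  have hlim : Tendsto (fun n => ∫ x in a..b, G n x) atTop (𝓝 (∫ x in a..b, (0 : ℝ))) := by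
    apply intervalIntegral.tendsto_integral_filter_of_dominated_convergence (fun _ => 4)
    · refine Eventually.of_forall fun n => ?_
      simp only [hG]
      split_ifs
      · have := continuous_A c n
        apply Continuous.aestronglyMeasurable
        fun_prop
      · exact aestronglyMeasurable_const
    · refine Eventually.of_forall fun n => Eventually.of_forall fun x _ => ?_
      simp only [hG]
      split_ifs with h1
      · have hD : 0 < D c n := lt_of_lt_of_le hε h1
        rw [Real.norm_of_nonneg (by positivity), div_le_iff₀ (by positivity)]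
        have := norm_A_le_D c n x
        nlinarith [norm_nonneg (A c n x)]
      · simp
    · exact _root_.intervalIntegrable_const
    · have hne : ∀ᵐ x ∂(volume : Measure ℝ), x ≠ b := by
        simp [ae_iff, measure_singleton]
      filter_upwards [hne, h] with x hxb hxt hx
      rw [Set.uIoc_of_le hab.le] at hx
      have hA := tendsto_A hxt
      have hA2 : Tendsto (fun n => ‖A c n x‖ ^ 2 / ε ^ 2) atTop (𝓝 0) := by
        have := (hA.norm.pow 2).div_const (ε ^ 2)
        simpa using this
      apply squeeze_zero (fun n => ?_) (fun n => ?_) hA2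
      · simp only [hG]
        split_ifs
        · positivity
        · exact le_refl _
      · simp only [hG]
        split_ifs with h1
        · apply div_le_div_of_nonneg_left (by positivity) (by positivity)
          gcongr
        · positivity
  rw [intervalIntegral.integral_zero] at hlim
  have hev1 : ∀ᶠ n in atTop, ∫ x in a..b, G n x < (b - a) / 2 :=
    hlim.eventually_lt_const (by positivity)
  have hev2 : ∀ᶠ n : ℕ in atTop, 1 / (n : ℝ) < (b - a) / 2 :=
    (tendsto_one_div_atTop_nhds_zero_nat).eventually_lt_const (by positivity)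
  obtain ⟨N, hN⟩ := eventually_atTop.mp ((hev1.and hev2).and (eventually_ne_atTop 0))
  refine ⟨N, fun n hn => ?_⟩
  obtain ⟨⟨h1, h2⟩, h3⟩ := hN n hn.le
  rw [dist_zero_right, Real.norm_of_nonneg (D_nonneg c n)]
  by_contra hcon
  push Not at hcon
  have hD : 0 < D c n := lt_of_lt_of_le hε hcon
  have h4 : ∫ x in a..b, G n x = (∫ x in a..b, ‖A c n x‖ ^ 2) / D c n ^ 2 := by
    rw [← intervalIntegral.integral_div]
    apply intervalIntegral.integral_congr
    intro x _
    simp only [hG]
    rw [if_pos hcon]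
  have h5 := integral_norm_A_sq c h3 hab.le
  rw [h4, div_lt_iff₀ (by positivity)] at h1
  have h6 : 0 < D c n ^ 2 := by positivity
  nlinarith

end Pool.Agent.H292LU
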