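import Pool.Agent.H292_LU.Bary

/-!
# Dirichlet sequences, and the density sets
-/

set_option autoImplicit false

open MeasureTheory Filter Topology Set

namespace Pool.Agent.H292LU

open Pool.Agent.Y249.SU

/-- The distance to the nearest integer. -/
noncomputable def nd (x : ℝ) : ℝ := |x - round x|

theorem nd_le (x : ℝ) (z : ℤ) : nd x ≤ |x - z| := round_le x z

theorem nd_nonneg (x : ℝ) : 0 ≤ nd x := abs_nonneg _

theorem exists_eta {α : ℝ} (h : Irrational α) (N : ℕ) :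
    ∃ η : ℝ, 0 < η ∧ ∀ j : ℕ, 1 ≤ j → j ≤ N → η ≤ nd (j * α) := by
  induction N with
  | zero => exact ⟨1, one_pos, fun j h1 h2 => by omega⟩
  | succ N ih =>
    obtain ⟨η, hη, h1⟩ := ih
    have h2 : 0 < nd ((N + 1 : ℕ) * α) := by
      unfold nd
      rw [abs_pos, sub_ne_zero]
      intro h3
      have h4 : Irrational ((N + 1 : ℕ) * α) := h.natCast_mul (by omega)
      exact h4 ⟨(round ((N + 1 : ℕ) * α) : ℚ), by rw [h3]; simp⟩
    refine ⟨min η (nd ((N + 1 : ℕ) * α)), lt_min hη h2, fun j h3 h4 => ?_⟩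
    rcases Nat.lt_or_ge j (N + 1) with h5 | h5
    · exact (min_le_left _ _).trans (h1 j h3 (by omega))
    · have : j = N + 1 := by omega
      subst this
      exact min_le_right _ _

theorem dirichlet {α γ : ℝ} (h : Irrational α ∨ γ = 0) (N : ℕ) :
    ∃ q : ℕ, N ≤ q ∧ 0 < q ∧ (q : ℝ) * nd (q * α - γ) ≤ 5 := by
  by_cases hirr : Irrational α
  · obtain ⟨η, hη, hη2⟩ := exists_eta hirr N
    obtain ⟨n, hn⟩ := exists_nat_one_div_lt hη
    obtain ⟨r, hr1, hr2⟩ := Real.exists_rat_abs_sub_le_and_den_le α (n := n + 1) (by omega)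
    set b := r.den with hb
    have hb0 : 0 < b := r.den_pos
    have hbR : (0:ℝ) < b := by exact_mod_cast hb0
    have hrr : (r : ℝ) = r.num / b := by
      rw [hb]; exact_mod_cast (Rat.num_div_den r).symm
    have h1 : |(b:ℝ) * α - r.num| ≤ 1 / ((n:ℝ) + 1 + 1) := by
      have h2 : (b:ℝ) * α - r.num = b * (α - r) := by
        rw [hrr]; field_simp
      rw [h2, abs_mul, abs_of_pos hbR]
      calc (b:ℝ) * |α - r| ≤ b * (1 / (((n + 1 : ℕ) + 1) * b)) := by
            apply mul_le_mul_of_nonneg_left hr1 hbR.le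
        _ = 1 / ((n:ℝ) + 1 + 1) := by
            push_cast
            field_simp
    have hbN : N < b := by
      by_contra hcon
      push Not at hcon
      have h3 := hη2 b hb0 hcon
      have h4 := nd_le (b * α) r.num
      have h5 : (1:ℝ) / ((n:ℝ) + 1 + 1) ≤ 1 / ((n:ℝ) + 1) := by
        apply one_div_le_one_div_of_le (by positivity)
        linarith
      linarith
    -- solve the congruence
    set z : ℤ := round ((b:ℝ) * γ) with hz
    have hcop : IsCoprime r.num (b : ℤ) := by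
      rw [Int.isCoprime_iff_nat_coprime]
      simpa using r.reduced
    obtain ⟨s, t, hst⟩ := hcop
    set w : ℤ := (s * z) % b with hw
    have hw0 : 0 ≤ w := Int.emod_nonneg _ (by exact_mod_cast hb0.ne')
    have hw1 : w < b := Int.emod_lt_of_pos _ (by exact_mod_cast hb0)
    obtain ⟨W, hW⟩ := Int.eq_ofNat_of_zero_le hw0
    have hdiv : (b : ℤ) ∣ (b + w) * r.num - z := by
      have h3 : s * z = b * (s * z / b) + w := (Int.mul_ediv_add_emod _ _).symm
      have h4 : w = s * z - b * (s * z / b) := by linarith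
      refine ⟨r.num - (s * z / b) * r.num - t * z, ?_⟩
      rw [h4]
      linear_combination z * hst
    obtain ⟨y, hy⟩ := hdiv
    refine ⟨b + W, by omega, by omega, ?_⟩
    have hWb : (W:ℝ) < b := by
      have : (W:ℤ) < b := by rw [hW] at hw1; exact_mod_cast hw1
      exact_mod_cast this
    have hyR : ((b:ℝ) + W) * r.num - z = b * y := by
      rw [hW] at hy
      exact_mod_cast hy
    have key : nd (((b + W : ℕ) : ℝ) * α - γ) ≤ 5 / (2 * b) := by
      refine (nd_le _ y).trans ?_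
      have h3 : ((b + W : ℕ) : ℝ) * α - γ - y = ((b:ℝ) + W) / b * (b * α - r.num) +
          (z - b * γ) / b := by
        have : (y:ℝ) = (((b:ℝ) + W) * r.num - z) / b := by
          rw [hyR]; field_simp
        rw [this]
        push_cast
        field_simp
        ring
      rw [h3]
      have h4 : |((b:ℝ) + W) / b * (b * α - r.num)| ≤ 2 * (1 / b) := by
        rw [abs_mul]
        apply mul_le_mul _ _ (abs_nonneg _) (by norm_num)
        · rw [abs_of_nonneg (by positivity), div_le_iff₀ hbR]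
          linarith
        · refine h1.trans (one_div_le_one_div_of_le hbR ?_)
          have : (b:ℝ) ≤ (n + 1 : ℕ) := by exact_mod_cast hr2
          push_cast at this
          linarith
      have h5 : |((z:ℝ) - b * γ) / b| ≤ (1 / 2) / b := by
        rw [abs_div, abs_of_pos hbR]
        apply div_le_div_of_nonneg_right _ hbR.le
        rw [abs_sub_comm]
        exact abs_sub_round _
      refine (abs_add_le _ _).trans ((add_le_add h4 h5).trans (le_of_eq ?_))
      field_simp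
      norm_num
    calc ((b + W : ℕ) : ℝ) * nd (((b + W : ℕ) : ℝ) * α - γ) ≤ (2 * b) * (5 / (2 * b)) := by
          apply mul_le_mul _ key (nd_nonneg _) (by positivity)
          push_cast
          linarith
      _ = 5 := by field_simp
  · have hγ : γ = 0 := h.resolve_left hirr
    subst hγ
    unfold Irrational at hirr
    rw [not_not] at hirr
    obtain ⟨r, hr⟩ := hirr
    refine ⟨r.den * (N + 1), ?_, by have := r.den_pos; positivity, ?_⟩
    · have := r.den_pos
      nlinarith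
    · have h1 : ((r.den * (N + 1) : ℕ) : ℝ) * α - 0 = ((r.num * (N + 1) : ℤ) : ℝ) := by
        rw [← hr]
        have h2 : (r : ℝ) = r.num / r.den := by exact_mod_cast (Rat.num_div_den r).symm
        have h3 : (0:ℝ) < r.den := by exact_mod_cast r.den_pos
        rw [h2]
        push_cast
        field_simp
        ring
      rw [h1]
      unfold nd
      rw [round_intCast]
      simp

/-- The points whose orbits along the sequences `u i`, seen from the moving targets `z i`, are dense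
modulo one. -/
def DD {ι : Type*} (u : ι → ℕ → ℕ) (z : ι → ℕ → ℝ) : Set ℝ :=
  {x | ∀ (i : ι) (n m N : ℕ), m ≤ n → ∃ k, N ≤ k ∧
    Int.fract ((u i k : ℝ) * x - z i k) ∈ Ioo ((m:ℝ) / (n + 1)) ((m + 1 : ℝ) / (n + 1))}

theorem exists_mult (n m : ℕ) : ∃ γ : ℤ → ℂ,
    (Summable fun j : ℤ => (1 + |(j : ℝ)|) * ‖γ j‖) ∧ γ 0 ≠ 0 ∧
    (m ≤ n → ∀ x, lam γ x ≠ 0 → Int.fract x ∈ Ioo ((m:ℝ) / (n + 1)) ((m + 1 : ℝ) / (n + 1))) := by
  by_cases hmn : m ≤ n
  · have hn : (0:ℝ) < (n:ℝ) + 1 := by positivity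
    have hmn' : (m:ℝ) ≤ n := by exact_mod_cast hmn
    obtain ⟨γ, h1, h2, h3⟩ := Pool.Agent.Y967.MU.BUMP.t_BUMP ((m:ℝ) / (n + 1)) ((m + 1 : ℝ) / (n + 1))
      (by positivity) (by gcongr; linarith) (by rw [div_le_one hn]; linarith)
    refine ⟨γ, h1, h2, fun _ x hx => ?_⟩
    by_contra hcon
    apply hx
    have h4 : lam γ x = lam γ (Int.fract x) := by
      conv_lhs => rw [← Int.fract_add_floor x]
      rw [lam_int]
    rw [h4]
    exact h3 _ ⟨Int.fract_nonneg _, (Int.fract_lt_one _).le⟩ hcon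
  · obtain ⟨γ, h1, h2, h3⟩ := Pool.Agent.Y967.MU.BUMP.t_BUMP 0 1 le_rfl one_pos le_rfl
    exact ⟨γ, h1, h2, fun h => absurd h hmn⟩

theorem master {ι : Type*} [Countable ι] [Nonempty ι] (u : ι → ℕ → ℕ) (z : ι → ℕ → ℝ)
    (hu : ∀ i, Tendsto (u i) atTop atTop) :
    (∀ c : ℤ → ℂ, (∀ x ∈ DD u z, ∃ C : ℝ, ∀ N : ℕ, ‖S c N x‖ ≤ C) →
      (∀ᵐ x : ℝ, Tendsto (fun N : ℕ => S c N x) atTop (𝓝 0)) → ∀ n, c n = 0) ∧
    (∀ μ : Measure ℝ, IsFiniteMeasure μ → Tendsto (fun n : ℤ => ∫ x, E n x ∂μ) cofinite (𝓝 0) →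
      ∀ᵐ x ∂μ, x ∈ DD u z) := by
  obtain ⟨g, hg⟩ := exists_surjective_nat (ι × ℕ × ℕ × ℕ)
  choose γ hγ hγ0 hγ2 using exists_mult
  set Γ : ℕ → ℕ → ℤ → ℂ := fun i k j => γ (g i).2.1 (g i).2.2.1 j *
    E j (- z (g i).1 ((g i).2.2.2 + k)) with hΓ
  set M : ℕ → ℕ → ℤ := fun i k => (u (g i).1 ((g i).2.2.2 + k) : ℤ) with hMdef
  set G : ℕ → ℤ → ℝ := fun i j => ‖γ (g i).2.1 (g i).2.2.1 j‖ with hG
  have hGs : ∀ i, Summable fun j : ℤ => (1 + |(j : ℝ)|) * G i j := fun i => hγ _ _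
  have hΓG : ∀ i k j, ‖Γ i k j‖ ≤ G i j := by
    intro i k j
    rw [hΓ, hG]
    simp only [norm_mul, norm_E, mul_one]
    exact le_rfl
  have hΓ0 : ∀ i k, Γ i k 0 = γ (g i).2.1 (g i).2.2.1 0 := by
    intro i k
    rw [hΓ]
    simp only [E_zero, mul_one]
  have hM : ∀ i, Tendsto (M i) atTop atTop := by
    intro i
    have h1 : Tendsto (fun k => u (g i).1 ((g i).2.2.2 + k)) atTop atTop :=
      (hu (g i).1).comp (tendsto_atTop_mono (fun k => Nat.le_add_left k _) tendsto_id)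
    exact tendsto_natCast_atTop_atTop.comp h1
  have hlam : ∀ i k y, lam (Γ i k) y =
      lam (γ (g i).2.1 (g i).2.2.1) (y - z (g i).1 ((g i).2.2.2 + k)) := by
    intro i k y
    unfold lam
    congr 1
    ext j
    rw [hΓ]
    simp only
    rw [show y - z (g i).1 ((g i).2.2.2 + k) = - z (g i).1 ((g i).2.2.2 + k) + y by ring, E_add]
    ring
  have hmem : ∀ x, (∀ i, x ∉ KS (Γ i) (M i)) → x ∈ DD u z := by
    intro x hx i n m N hmn
    obtain ⟨j, hj⟩ := hg (i, n, m, N)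
    have h1 := hx j
    unfold KS at h1
    rw [mem_ofPred_eq] at h1
    push Not at h1
    obtain ⟨k, hk⟩ := h1
    rw [hlam, hMdef] at hk
    simp only [hj] at hk
    refine ⟨N + k, Nat.le_add_right _ _, ?_⟩
    exact_mod_cast hγ2 n m hmn _ hk
  refine ⟨fun c hc hae => ?_, fun μ hμf hμ => ?_⟩
  · exact bary hM hGs hΓG (fun i => hγ0 _ _) hΓ0 (fun x hx => hc x (hmem x hx)) hae
  · have h1 : ∀ᵐ x ∂μ, ∀ i, x ∉ KS (Γ i) (M i) := by
      rw [ae_all_iff]
      intro i
      rw [ae_iff]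
      simp only [not_not]
      exact raj_null hμ (hM i) (summable_norm_gamma (hγ _ _)) (hΓG i) (hγ0 _ _) (hΓ0 i)
    exact h1.mono hmem

theorem ae_DD {ι : Type*} [Countable ι] [Nonempty ι] (u : ι → ℕ → ℕ) (z : ι → ℕ → ℝ)
    (hu : ∀ i, Tendsto (u i) atTop atTop) : ∀ᵐ x : ℝ, x ∈ DD u z := by
  obtain ⟨g, hg⟩ := exists_surjective_nat (ι × ℕ × ℕ × ℕ)
  choose γ hγ hγ0 hγ2 using exists_mult
  set Γ : ℕ → ℕ → ℤ → ℂ := fun i k j => γ (g i).2.1 (g i).2.2.1 j *
    E j (- z (g i).1 ((g i).2.2.2 + k)) with hΓ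
  set M : ℕ → ℕ → ℤ := fun i k => (u (g i).1 ((g i).2.2.2 + k) : ℤ) with hMdef
  set G : ℕ → ℤ → ℝ := fun i j => ‖γ (g i).2.1 (g i).2.2.1 j‖ with hG
  have hΓG : ∀ i k j, ‖Γ i k j‖ ≤ G i j := by
    intro i k j
    rw [hΓ, hG]
    simp only [norm_mul, norm_E, mul_one]
    exact le_rfl
  have hΓ0 : ∀ i k, Γ i k 0 = γ (g i).2.1 (g i).2.2.1 0 := by
    intro i k
    rw [hΓ]
    simp only [E_zero, mul_one]
  have hM : ∀ i, Tendsto (M i) atTop atTop := by
    intro i
    have h1 : Tendsto (fun k => u (g i).1 ((g i).2.2.2 + k)) atTop atTop :=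
      (hu (g i).1).comp (tendsto_atTop_mono (fun k => Nat.le_add_left k _) tendsto_id)
    exact tendsto_natCast_atTop_atTop.comp h1
  have hlam : ∀ i k y, lam (Γ i k) y =
      lam (γ (g i).2.1 (g i).2.2.1) (y - z (g i).1 ((g i).2.2.2 + k)) := by
    intro i k y
    unfold lam
    congr 1
    ext j
    rw [hΓ]
    simp only
    rw [show y - z (g i).1 ((g i).2.2.2 + k) = - z (g i).1 ((g i).2.2.2 + k) + y by ring, E_add]
    ring
  have hmem : ∀ x, (∀ i, x ∉ KS (Γ i) (M i)) → x ∈ DD u z := by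
    intro x hx i n m N hmn
    obtain ⟨j, hj⟩ := hg (i, n, m, N)
    have h1 := hx j
    unfold KS at h1
    rw [mem_ofPred_eq] at h1
    push Not at h1
    obtain ⟨k, hk⟩ := h1
    rw [hlam, hMdef] at hk
    simp only [hj] at hk
    refine ⟨N + k, Nat.le_add_right _ _, ?_⟩
    exact_mod_cast hγ2 n m hmn _ hk
  have h1 : ∀ᵐ x : ℝ, ∀ i, x ∉ KS (Γ i) (M i) := by
    rw [ae_all_iff]
    intro i
    rw [ae_iff]
    simp only [not_not]
    exact vol_null (hM i) (summable_norm_gamma (hγ _ _)) (hΓG i) (hγ0 _ _) (hΓ0 i)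
  exact h1.mono hmem

end Pool.Agent.H292LU
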