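import Pool.Agent.Y249.SU.Convex

/-!
# Convexity with an exceptional null set
-/

set_option autoImplicit false

open MeasureTheory Filter Topology Set
open scoped ENNReal

namespace Pool.Agent.H292LU

open Pool.Agent.Y249.SU (mean mean_max)

theorem le_chord2 {F : ℝ → ℝ} (hF : Continuous F) {a b : ℝ} (hab : a < b)
    (hD : ∀ x ∈ Set.Ioo a b, ∀ η : ℝ, 0 < η → ∀ᶠ h in 𝓝[>] (0:ℝ),
      -η < 6 * (mean F h x - F x) / h ^ 2)
    {x : ℝ} (hx : x ∈ Set.Icc a b) :
    F x ≤ F a + (F b - F a) / (b - a) * (x - a) := by
  by_contra hcon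
  push Not at hcon
  set k := (F b - F a) / (b - a) with hk
  set η := F x - (F a + k * (x - a)) with hη
  have hη0 : 0 < η := by linarith
  have hba : 0 < b - a := by linarith
  set ε := η / (2 * (b - a) ^ 2) with hε
  have hε0 : 0 < ε := by positivity
  set g : ℝ → ℝ := fun y => F y - F a - k * (y - a) + ε * ((y - a) * (y - b)) with hg
  have hgc : Continuous g := by
    rw [hg]
    fun_prop
  obtain ⟨x0, hx0, hmax⟩ := isCompact_Icc.exists_isMaxOn (Set.nonempty_Icc.mpr hab.le)
    hgc.continuousOn (s := Set.Icc a b)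
  have hgx : 0 < g x := by
    have h1 : (x - a) * (x - b) ≥ - (b - a) ^ 2 := by
      nlinarith [hx.1, hx.2]
    have h2 : ε * ((x - a) * (x - b)) ≥ - (η / 2) := by
      have : ε * (b - a) ^ 2 = η / 2 := by
        rw [hε]
        field_simp
      nlinarith
    simp only [hg]
    have : F x - F a - k * (x - a) = η := by rw [hη]; ring
    rw [this]
    linarith
  have hgx0 : 0 < g x0 := lt_of_lt_of_le hgx (hmax hx)
  have hga : g a = 0 := by simp [hg]
  have hgb : g b = 0 := by
    simp only [hg, sub_self, mul_zero, add_zero]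
    rw [hk]
    field_simp
    ring
  have hx0a : a < x0 := lt_of_le_of_ne hx0.1 (fun h => by rw [← h, hga] at hgx0; exact lt_irrefl _ hgx0)
  have hx0b : x0 < b := lt_of_le_of_ne hx0.2 (fun h => by rw [h, hgb] at hgx0; exact lt_irrefl _ hgx0)
  have hsmall : ∀ᶠ h in 𝓝[>] (0 : ℝ), 6 * (mean F h x0 - F x0) / h ^ 2 ≤ - (2 * ε) := by
    have h1 : ∀ᶠ h in 𝓝[>] (0 : ℝ), h < min (x0 - a) (b - x0) := by
      apply eventually_nhdsWithin_of_eventually_nhds
      exact eventually_lt_nhds (by
        rw [lt_min_iff]
        constructor <;> linarith)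
    filter_upwards [h1, self_mem_nhdsWithin] with h hh hh0
    have hh0 : 0 < h := hh0
    rw [lt_min_iff] at hh
    have h2 := mean_max hF (h := h) (x := x0) (k := k) (c := F a) (a := a) (b := b) (ε := ε) (M := g x0)
      hh0 (fun y hy => hmax (show y ∈ Set.Icc a b from ⟨by linarith [hy.1, hh.1], by linarith [hy.2, hh.2]⟩)) rfl
    rw [div_le_iff₀ (by positivity)]
    nlinarith
  obtain ⟨h, h1, h2⟩ := ((hD x0 ⟨hx0a, hx0b⟩ (2 * ε) (by positivity)).and hsmall).exists
  linarith

/-- symmetric second differences give the mean -/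
theorem mean_of_second {U : ℝ → ℝ} (hU : Continuous U) {x h K : ℝ} (hh : 0 < h)
    (hK : ∀ t ∈ Icc (-h) h, K * t ^ 2 ≤ U (x + t) + U (x - t) - 2 * U x) :
    K * h ^ 2 / 6 ≤ mean U h x - U x := by
  have h1 : ∫ y in (x - h)..(x + h), U (2 * x - y) = ∫ y in (x - h)..(x + h), U y := by
    rw [intervalIntegral.integral_comp_sub_left]
    congr 1 <;> ring
  have h2 : ∫ y in (x - h)..(x + h), (K * (y - x) ^ 2 + 2 * U x) ≤
      ∫ y in (x - h)..(x + h), (U y + U (2 * x - y)) := by
    apply intervalIntegral.integral_mono_on (by linarith)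
    · apply Continuous.intervalIntegrable
      fun_prop
    · apply Continuous.intervalIntegrable
      fun_prop
    · intro y hy
      have h3 := hK (y - x) ⟨by linarith [hy.1], by linarith [hy.2]⟩
      have h4 : x + (y - x) = y := by ring
      have h5 : x - (y - x) = 2 * x - y := by ring
      rw [h4, h5] at h3
      linarith
  have h3 : ∫ y in (x - h)..(x + h), (U y + U (2 * x - y)) =
      2 * ∫ y in (x - h)..(x + h), U y := by
    rw [intervalIntegral.integral_add, h1]
    · ring
    · exact hU.intervalIntegrable _ _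
    · apply Continuous.intervalIntegrable
      fun_prop
  have h4 : ∫ y in (x - h)..(x + h), (K * (y - x) ^ 2 + 2 * U x) =
      K * (2 * h ^ 3 / 3) + 2 * U x * (2 * h) := by
    have h5 : ∀ y ∈ Set.uIcc (x - h) (x + h), HasDerivAt
        (fun y => K * ((y - x) ^ 3 / 3) + 2 * U x * y) (K * (y - x) ^ 2 + 2 * U x) y := by
      intro y _
      have e1 : HasDerivAt (fun y : ℝ => y) 1 y := hasDerivAt_id y
      have e2 : HasDerivAt (fun y : ℝ => (y - x) ^ 3) (3 * (y - x) ^ 2) y := by
        simpa using (e1.sub_const x).fun_pow 3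
      have := ((e2.div_const 3).const_mul K).add (e1.const_mul (2 * U x))
      exact this.congr_deriv (by ring)
    rw [intervalIntegral.integral_eq_sub_of_hasDerivAt h5
      (by apply Continuous.intervalIntegrable; fun_prop)]
    ring
  rw [h3, h4] at h2
  unfold mean
  have h6 : (1 / (2 * h)) * (K * (h ^ 3 / 3) + 2 * h * U x) ≤
      (1 / (2 * h)) * ∫ y in (x - h)..(x + h), U y := by
    apply mul_le_mul_of_nonneg_left _ (by positivity)
    linarith
  have h7 : (1 / (2 * h)) * (K * (h ^ 3 / 3) + 2 * h * U x) = K * h ^ 2 / 6 + U x := by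
    field_simp
    ring
  linarith

theorem exists_U {Z : Set ℝ} (hZ : volume Z = 0) {a b : ℝ} :
    ∃ U : ℝ → ℝ, Continuous U ∧ (∀ x h : ℝ, 0 < h → 0 ≤ mean U h x - U x) ∧
      ∀ x ∈ Set.Ioo a b ∩ Z, ∀ K : ℝ, ∀ᶠ h in 𝓝[>] (0:ℝ), K ≤ 6 * (mean U h x - U x) / h ^ 2 := by
  classical
  set Z' := toMeasurable volume Z with hZ'
  have hZ'0 : volume Z' = 0 := by rw [hZ', measure_toMeasurable, hZ]
  have hZ'm : MeasurableSet Z' := measurableSet_toMeasurable _ _
  set f : ℝ → ℝ≥0∞ := Z'.indicator (fun _ => ⊤) with hf
  have hfm : Measurable f := measurable_const.indicator hZ'm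
  obtain ⟨g, hfg, hlsc, hint⟩ := exists_le_lowerSemicontinuous_lintegral_ge volume f hfm
    (ε := 1) one_ne_zero
  have hf0 : ∫⁻ x, f x = 0 := by
    rw [hf, lintegral_indicator_const hZ'm, hZ'0, mul_zero]
  rw [hf0, zero_add] at hint
  have hgm : Measurable g := hlsc.measurable
  have hgfin : ∫⁻ x, g x ≠ ⊤ := ne_top_of_le_ne_top ENNReal.one_ne_top hint
  have hglt : ∀ᵐ x, g x < ⊤ := ae_lt_top hgm hgfin
  have hgint : Integrable (fun s => (g s).toReal) :=
    integrable_toReal_of_lintegral_ne_top hgm.aemeasurable hgfin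
  set u : ℝ → ℝ := (Icc (a - 1) (b + 1)).indicator (fun s => (g s).toReal) with hu
  have huint : Integrable u := hgint.indicator measurableSet_Icc
  have hu0 : ∀ s, 0 ≤ u s := fun s => indicator_nonneg (fun _ _ => ENNReal.toReal_nonneg) s
  have hxint : ∀ x, Integrable (fun s => max (x - s) 0 * u s) := by
    intro x
    refine Integrable.mono' (huint.const_mul (|x| + |a| + |b| + 2)) ?_ (Eventually.of_forall ?_)
    · apply Continuous.aestronglyMeasurable (f := fun s => max (x - s) 0) (by fun_prop) |>.mul
      exact huint.aestronglyMeasurable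
    · intro s
      rw [Real.norm_eq_abs, abs_mul, abs_of_nonneg (hu0 s)]
      by_cases hs : s ∈ Icc (a - 1) (b + 1)
      · apply mul_le_mul_of_nonneg_right _ (hu0 s)
        rw [abs_of_nonneg (le_max_right _ _)]
        apply max_le
        · have := hs.1
          have h1 := le_abs_self x
          have h2 := neg_abs_le a
          have h3 := abs_nonneg b
          linarith
        · positivity
      · simp [hu, indicator_of_notMem hs]
  set U : ℝ → ℝ := fun x => ∫ s, max (x - s) 0 * u s with hU
  have hUlip : ∀ x y, |U x - U y| ≤ |x - y| * ∫ s, u s := by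
    intro x y
    simp only [hU]
    rw [← integral_sub (hxint x) (hxint y), ← integral_const_mul]
    rw [← Real.norm_eq_abs]
    refine norm_integral_le_of_norm_le (huint.const_mul _) (Eventually.of_forall fun s => ?_)
    rw [← sub_mul, norm_mul, Real.norm_eq_abs, Real.norm_eq_abs, abs_of_nonneg (hu0 s)]
    apply mul_le_mul_of_nonneg_right _ (hu0 s)
    have := abs_max_sub_max_le_abs (x - s) (y - s) 0
    have h2 : x - s - (y - s) = x - y := by ring
    rwa [h2] at this
  have hUc : Continuous U := by
    rw [continuous_iff_continuousAt]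
    intro x
    rw [ContinuousAt, tendsto_iff_dist_tendsto_zero]
    have h1 : Tendsto (fun y => |y - x| * ∫ s, u s) (𝓝 x) (𝓝 0) := by
      have : Continuous (fun y => |y - x| * ∫ s, u s) := by fun_prop
      have h2 := this.tendsto x
      simpa using h2
    exact squeeze_zero (fun _ => dist_nonneg) (fun y => by rw [Real.dist_eq]; exact hUlip y x) h1
  -- the second difference
  have hsec : ∀ x t : ℝ, U (x + t) + U (x - t) - 2 * U x =
      ∫ s, (max (x + t - s) 0 + max (x - t - s) 0 - 2 * max (x - s) 0) * u s := by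
    intro x t
    simp only [hU]
    have e1 : ∫ s, (max (x + t - s) 0 + max (x - t - s) 0 - 2 * max (x - s) 0) * u s =
        ∫ s, ((max (x + t - s) 0 * u s + max (x - t - s) 0 * u s) -
          2 * (max (x - s) 0 * u s)) := by
      congr 1
      ext s
      ring
    rw [e1, integral_sub (by exact (hxint _).add (hxint _)) (by exact (hxint _).const_mul 2),
      integral_add (hxint _) (hxint _), integral_const_mul]
  have hker : ∀ x t s : ℝ, 0 ≤ max (x + t - s) 0 + max (x - t - s) 0 - 2 * max (x - s) 0 := by
    intro x t s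
    rcases le_total (x - s) 0 with h | h
    · rw [max_eq_right h]
      have h1 := le_max_right (x + t - s) 0
      have h2 := le_max_right (x - t - s) 0
      linarith
    · rw [max_eq_left h]
      have h1 := le_max_left (x + t - s) 0
      have h2 := le_max_left (x - t - s) 0
      linarith
  have hker2 : ∀ x t s : ℝ, |x - s| ≤ |t| / 2 →
      |t| / 2 ≤ max (x + t - s) 0 + max (x - t - s) 0 - 2 * max (x - s) 0 := by
    intro x t s hs
    rw [abs_le] at hs
    rcases le_total t 0 with ht | ht
    · rw [abs_of_nonpos ht] at hs ⊢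
      have h1 := le_max_right (x + t - s) 0
      have h2 := le_max_left (x - t - s) 0
      rcases le_total (x - s) 0 with h | h
      · rw [max_eq_right h]; linarith [hs.1, hs.2]
      · rw [max_eq_left h]; linarith [hs.1, hs.2]
    · rw [abs_of_nonneg ht] at hs ⊢
      have h1 := le_max_left (x + t - s) 0
      have h2 := le_max_right (x - t - s) 0
      rcases le_total (x - s) 0 with h | h
      · rw [max_eq_right h]; linarith [hs.1, hs.2]
      · rw [max_eq_left h]; linarith [hs.1, hs.2]
  refine ⟨U, hUc, fun x h hh => ?_, fun x hx K => ?_⟩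
  · have := mean_of_second hUc (x := x) (K := 0) hh (fun t _ => by
      rw [zero_mul, hsec]
      exact integral_nonneg fun s => mul_nonneg (hker x t s) (hu0 s))
    linarith
  · -- lower semicontinuity
    set K' : ℝ := max K 0 * 2 with hK'
    have hK'0 : 0 ≤ K' := by positivity
    have hgx : g x = ⊤ := by
      have h1 := hfg x
      rw [hf, indicator_of_mem (subset_toMeasurable _ _ hx.2)] at h1
      exact top_le_iff.mp h1
    have hnear : ∀ᶠ y in 𝓝 x, ENNReal.ofReal K' < g y :=
      hlsc x _ (by
        show ENNReal.ofReal K' < g x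
        rw [hgx]; exact ENNReal.ofReal_lt_top)
    rw [Metric.eventually_nhds_iff] at hnear
    obtain ⟨r, hr, hr2⟩ := hnear
    have hev : ∀ᶠ h in 𝓝[>] (0:ℝ), h < min r 1 := by
      apply eventually_nhdsWithin_of_eventually_nhds
      exact eventually_lt_nhds (by positivity)
    filter_upwards [hev, self_mem_nhdsWithin] with h hh hh0
    have hh0 : 0 < h := hh0
    rw [lt_min_iff] at hh
    have hfinal : K' / 2 * h ^ 2 / 6 ≤ mean U h x - U x := by
      apply mean_of_second hUc hh0
      intro t ht
      rw [hsec]
      have ht2 : |t| ≤ h := abs_le.mpr ht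
      have h1 : ∫ s, (Icc (x - |t| / 2) (x + |t| / 2)).indicator (fun _ => |t| / 2 * K') s ≤
          ∫ s, (max (x + t - s) 0 + max (x - t - s) 0 - 2 * max (x - s) 0) * u s := by
        apply integral_mono_ae
        · rw [integrable_indicator_iff measurableSet_Icc]
          exact integrableOn_const (by simp)
        · have := (((hxint (x + t)).add (hxint (x - t))).sub ((hxint x).const_mul 2))
          refine this.congr (Eventually.of_forall fun s => ?_)
          simp only [Pi.add_apply, Pi.sub_apply]
          ring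
        · filter_upwards [hglt] with s hs
          by_cases hs2 : s ∈ Icc (x - |t| / 2) (x + |t| / 2)
          · rw [indicator_of_mem hs2]
            have hxs : |x - s| ≤ |t| / 2 := by
              rw [abs_le]
              constructor <;> linarith [hs2.1, hs2.2]
            have hsI : s ∈ Icc (a - 1) (b + 1) := by
              constructor <;> linarith [hs2.1, hs2.2, hx.1.1, hx.1.2, abs_nonneg t]
            have hus : K' ≤ u s := by
              rw [hu, indicator_of_mem hsI]
              have h3 : dist s x < r := by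
                rw [Real.dist_eq, abs_sub_comm]
                have := abs_nonneg t
                linarith
              have h4 := (hr2 h3).le
              rw [← ENNReal.ofReal_le_ofReal_iff ENNReal.toReal_nonneg,
                ENNReal.ofReal_toReal hs.ne]
              exact h4
            have h5 := hker2 x t s hxs
            have h6 : 0 ≤ |t| / 2 := by positivity
            exact mul_le_mul h5 hus hK'0 (hker x t s)
          · rw [indicator_of_notMem hs2]
            exact mul_nonneg (hker x t s) (hu0 s)
      rw [integral_indicator measurableSet_Icc, setIntegral_const, smul_eq_mul] at h1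
      have h2 : (volume : Measure ℝ).real (Icc (x - |t| / 2) (x + |t| / 2)) = |t| := by
        rw [Measure.real, Real.volume_Icc, ENNReal.toReal_ofReal]
        · ring
        · have := abs_nonneg t
          linarith
      rw [h2] at h1
      have h3 : |t| * (|t| / 2 * K') = K' / 2 * t ^ 2 := by
        rw [← sq_abs t]
        ring
      linarith
    rw [le_div_iff₀ (by positivity)]
    have h8 : K ≤ K' / 2 := by
      rw [hK']
      have := le_max_left K 0
      linarith
    have : K * h ^ 2 ≤ K' / 2 * h ^ 2 := by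
      apply mul_le_mul_of_nonneg_right h8 (by positivity)
    linarith

/-- A continuous function whose generalised second derivative is nonnegative almost everywhere and
bounded below at every point lies below its chords. -/
theorem le_chord3 {F : ℝ → ℝ} (hF : Continuous F)
    (hbd : ∀ x, ∃ C : ℝ, ∀ᶠ h in 𝓝[>] (0:ℝ), -C ≤ 6 * (mean F h x - F x) / h ^ 2)
    (hae : ∀ᵐ x, Tendsto (fun h => 6 * (mean F h x - F x) / h ^ 2) (𝓝[>] 0) (𝓝 0))
    {a b : ℝ} (hab : a < b) {x : ℝ} (hx : x ∈ Set.Icc a b) :
    F x ≤ F a + (F b - F a) / (b - a) * (x - a) := by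
  obtain ⟨U, hUc, hU0, hUZ⟩ := exists_U (ae_iff.mp hae) (a := a) (b := b)
  have hmean : ∀ (κ h y : ℝ), mean (fun z => F z + κ * U z) h y - (F y + κ * U y) =
      (mean F h y - F y) + κ * (mean U h y - U y) := by
    intro κ h y
    unfold mean
    rw [intervalIntegral.integral_add (hF.intervalIntegrable _ _)
      ((hUc.const_mul κ).intervalIntegrable _ _), intervalIntegral.integral_const_mul]
    ring
  have key : ∀ κ : ℝ, 0 < κ → F x + κ * U x ≤ (F a + κ * U a) +
      ((F b + κ * U b) - (F a + κ * U a)) / (b - a) * (x - a) := by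
    intro κ hκ
    refine le_chord2 (F := fun z => F z + κ * U z) (by fun_prop) hab ?_ hx
    intro y hy η hη
    by_cases hyZ : Tendsto (fun h => 6 * (mean F h y - F y) / h ^ 2) (𝓝[>] 0) (𝓝 0)
    · have h1 := hyZ.eventually (lt_mem_nhds (show -η < 0 by linarith))
      filter_upwards [h1, self_mem_nhdsWithin] with h h2 hh0
      have hh0 : 0 < h := hh0
      rw [hmean]
      have h3 := hU0 y h hh0
      have h4 : 0 ≤ 6 * (κ * (mean U h y - U y)) / h ^ 2 := by positivity
      have h5 : 6 * (mean F h y - F y + κ * (mean U h y - U y)) / h ^ 2 =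
          6 * (mean F h y - F y) / h ^ 2 + 6 * (κ * (mean U h y - U y)) / h ^ 2 := by ring
      rw [h5]
      linarith
    · obtain ⟨C, hC⟩ := hbd y
      have h1 := hUZ y ⟨hy, hyZ⟩ (C / κ)
      filter_upwards [h1, hC, self_mem_nhdsWithin] with h h2 h3 hh0
      have hh0 : 0 < h := hh0
      rw [hmean]
      have h5 : 6 * (mean F h y - F y + κ * (mean U h y - U y)) / h ^ 2 =
          6 * (mean F h y - F y) / h ^ 2 + κ * (6 * (mean U h y - U y) / h ^ 2) := by ring
      rw [h5]
      have h6 : C ≤ κ * (6 * (mean U h y - U y) / h ^ 2) := by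
        have := mul_le_mul_of_nonneg_left h2 hκ.le
        rwa [mul_div_cancel₀ _ hκ.ne'] at this
      linarith
  have hl : Tendsto (fun κ : ℝ => F x + κ * U x) (𝓝[>] 0) (𝓝 (F x)) := by
    have : Continuous (fun κ : ℝ => F x + κ * U x) := by fun_prop
    have h1 := this.tendsto 0
    simp only [zero_mul, add_zero] at h1
    exact h1.mono_left nhdsWithin_le_nhds
  have hr : Tendsto (fun κ : ℝ => (F a + κ * U a) +
      ((F b + κ * U b) - (F a + κ * U a)) / (b - a) * (x - a)) (𝓝[>] 0)
      (𝓝 (F a + (F b - F a) / (b - a) * (x - a))) := by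
    have : Continuous (fun κ : ℝ => (F a + κ * U a) +
      ((F b + κ * U b) - (F a + κ * U a)) / (b - a) * (x - a)) := by fun_prop
    have h1 := this.tendsto 0
    simp only [zero_mul, add_zero] at h1
    exact h1.mono_left nhdsWithin_le_nhds
  refine le_of_tendsto_of_tendsto hl hr ?_
  filter_upwards [self_mem_nhdsWithin] with κ hκ
  exact key κ hκ

theorem affine_of_bdd {F : ℝ → ℝ} (hF : Continuous F)
    (hbd : ∀ x, ∃ C : ℝ, ∀ᶠ h in 𝓝[>] (0:ℝ), |6 * (mean F h x - F x) / h ^ 2| ≤ C)
    (hae : ∀ᵐ x, Tendsto (fun h => 6 * (mean F h x - F x) / h ^ 2) (𝓝[>] 0) (𝓝 0)) :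
    ∃ α β : ℝ, ∀ x, F x = α * x + β := by
  have hm : ∀ x h, 6 * (mean (fun y => - F y) h x - (- F x)) / h ^ 2 =
      - (6 * (mean F h x - F x) / h ^ 2) := by
    intro x h
    unfold mean
    rw [intervalIntegral.integral_neg]
    ring
  have key : ∀ a b x : ℝ, a < b → x ∈ Set.Icc a b → F x = F a + (F b - F a) / (b - a) * (x - a) := by
    intro a b x hab hx
    apply le_antisymm
    · refine le_chord3 hF (fun y => ?_) hae hab hx
      obtain ⟨C, hC⟩ := hbd y
      exact ⟨C, hC.mono fun h hh => (abs_le.mp hh).1⟩
    · have h1 := le_chord3 (F := fun y => - F y) hF.neg (fun y => by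
        obtain ⟨C, hC⟩ := hbd y
        refine ⟨C, hC.mono fun h hh => ?_⟩
        rw [hm]
        linarith [(abs_le.mp hh).2]) (by
        filter_upwards [hae] with y hy
        have := hy.neg
        rw [neg_zero] at this
        exact this.congr fun h => (hm y h).symm) hab hx
      have h2 : (-F b - -F a) / (b - a) = - ((F b - F a) / (b - a)) := by ring
      rw [h2] at h1
      linarith
  refine ⟨F 1 - F 0, F 0, fun x => ?_⟩
  rcases le_or_gt x 1 with h1 | h1
  · rcases le_or_gt 0 x with h0 | h0
    · have := key 0 1 x one_pos ⟨h0, h1⟩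
      simp only [sub_zero, div_one] at this
      linarith
    · have := key x 1 0 (by linarith) ⟨h0.le, zero_le_one⟩
      have hx : (0 : ℝ) < 1 - x := by linarith
      have h3 : (F 1 - F x) / (1 - x) * (0 - x) * (1 - x) = (F 1 - F x) * (0 - x) := by
        field_simp
      have h4 : F 0 * (1 - x) = F x * (1 - x) + (F 1 - F x) * (0 - x) := by
        rw [this, add_mul, h3]
      linarith
  · have := key 0 x 1 (by linarith) ⟨zero_le_one, h1.le⟩
    have hx : (0 : ℝ) < x := by linarith
    simp only [sub_zero] at this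
    have h3 : (F x - F 0) / x * 1 * x = F x - F 0 := by
      field_simp
    have h4 : F 1 * x = F 0 * x + (F x - F 0) := by
      rw [this, add_mul, h3]
    linarith

end Pool.Agent.H292LU
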